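import Mathlib
import Pool.Agent.helper391_MY.Table

set_option autoImplicit false

/-! Sequences of integers each of which arises from the preceding one by adding a digit 3 or 9 and which have no
prime factor 7, 13, 17, 19: there are at most `C 1.258^n` of length `n`. -/

namespace Pool.Agent.helper391_MY

open Finset

/-- Not divisible by 7, 13, 17, 19. -/
def Good (m : ℤ) : Prop := m % 7 ≠ 0 ∧ m % 13 ≠ 0 ∧ m % 17 ≠ 0 ∧ m % 19 ≠ 0

instance (m : ℤ) : Decidable (Good m) := by unfold Good; infer_instance

/-- The `n`-th descendants of `m`. -/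
def desc : ℕ → ℤ → Finset ℤ
  | 0, m => {m}
  | n + 1, m => (if Good (10 * m + 3) then desc n (10 * m + 3) else ∅) ∪
      (if Good (10 * m + 9) then desc n (10 * m + 9) else ∅)

/-- The residue modulo `29393`. -/
def idx (m : ℤ) : ℕ := (m % 29393).toNat

theorem idx_lt (m : ℤ) : idx m < 29393 := by unfold idx; omega

theorem idx_three (m : ℤ) : (10 * idx m + 3) % 29393 = idx (10 * m + 3) := by unfold idx; omega

theorem idx_nine (m : ℤ) : (10 * idx m + 9) % 29393 = idx (10 * m + 9) := by unfold idx; omega

theorem val_idx (m : ℤ) (hm : Good m) :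
    1 ≤ val (idx m) ∧ 500 * (val (idx (10 * m + 3)) + val (idx (10 * m + 9))) + 250 ≤ 629 * val (idx m) := by
  obtain ⟨h1, h2, h3, h4⟩ := hm
  have h := val_spec (idx m) (idx_lt m) (by unfold idx; omega) (by unfold idx; omega) (by unfold idx; omega)
    (by unfold idx; omega)
  rw [idx_three, idx_nine] at h
  exact h

theorem card_desc (n : ℕ) : ∀ m : ℤ, Good m → (desc n m).card * 500 ^ n ≤ 629 ^ n * val (idx m) := by
  induction n with
  | zero =>
    intro m hm
    have := (val_idx m hm).1
    simp [desc]
    omega
  | succ n ih =>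
    intro m hm
    have h0 := (Nat.le_add_right _ 250).trans (val_idx m hm).2
    have key : ∀ a : ℤ, (if Good a then desc n a else ∅).card * 500 ^ n ≤ 629 ^ n * val (idx a) := by
      intro a
      split_ifs with h
      · exact ih a h
      · simp
    have h1 := key (10 * m + 3)
    have h2 := key (10 * m + 9)
    have h3 : (desc (n + 1) m).card ≤ (if Good (10 * m + 3) then desc n (10 * m + 3) else ∅).card +
        (if Good (10 * m + 9) then desc n (10 * m + 9) else ∅).card := by
      rw [desc]
      exact Finset.card_union_le _ _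
    calc (desc (n + 1) m).card * 500 ^ (n + 1)
        ≤ ((if Good (10 * m + 3) then desc n (10 * m + 3) else ∅).card +
          (if Good (10 * m + 9) then desc n (10 * m + 9) else ∅).card) * 500 ^ (n + 1) :=
          Nat.mul_le_mul_right _ h3
      _ = 500 * ((if Good (10 * m + 3) then desc n (10 * m + 3) else ∅).card * 500 ^ n +
          (if Good (10 * m + 9) then desc n (10 * m + 9) else ∅).card * 500 ^ n) := by ring
      _ ≤ 500 * (629 ^ n * val (idx (10 * m + 3)) + 629 ^ n * val (idx (10 * m + 9))) :=
          Nat.mul_le_mul_left _ (Nat.add_le_add h1 h2)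
      _ = 629 ^ n * (500 * (val (idx (10 * m + 3)) + val (idx (10 * m + 9)))) := by ring
      _ ≤ 629 ^ n * (629 * val (idx m)) := Nat.mul_le_mul_left _ h0
      _ = 629 ^ (n + 1) * val (idx m) := by ring

theorem mem_desc (X : ℕ → ℤ) (n : ℕ) : ∀ N : ℕ, (∀ k, N ≤ k → Good (X k)) →
    (∀ k, N ≤ k → X (k + 1) = 10 * X k + 3 ∨ X (k + 1) = 10 * X k + 9) → X (N + n) ∈ desc n (X N) := by
  induction n with
  | zero => intro N _ _; simp [desc]
  | succ n ih =>
    intro N h1 h2
    have h := ih (N + 1) (fun k hk => h1 k (by omega)) (fun k hk => h2 k (by omega))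
    have hg := h1 (N + 1) (by omega)
    have he : N + 1 + n = N + (n + 1) := by ring
    rw [he] at h
    rw [desc, Finset.mem_union]
    rcases h2 N le_rfl with h3 | h3
    · left
      rw [h3] at h hg
      rw [if_pos hg]
      exact h
    · right
      rw [h3] at h hg
      rw [if_pos hg]
      exact h

end Pool.Agent.helper391_MY
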