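import Mathlib
import Pool.Agent.helper391_MY.Count

set_option autoImplicit false

/-! The number of primes with a given prefix such that all prefixes in between are primes. -/

namespace Pool.Agent.helper391_MY

open Finset

/-- Not divisible by 3, 7, 13, 17, 19. -/
def Ok (m : ℕ) : Prop := Good (m : ℤ) ∧ m % 3 ≠ 0

instance (m : ℕ) : Decidable (Ok m) := by unfold Ok; infer_instance

/-- The weight. -/
def wt (m : ℕ) : ℕ := if m % 3 = 2 then val (idx m) else 16384 * val (idx m)

/-- One branch. -/
def br (f : ℕ → Finset ℕ) (m : ℕ) : Finset ℕ := if Ok m then f m else ∅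

/-- The descendants. -/
def D : ℕ → ℕ → Finset ℕ
  | 0, m => {m}
  | n + 1, m => (br (D n) (10 * m + 1) ∪ br (D n) (10 * m + 3)) ∪ (br (D n) (10 * m + 7) ∪ br (D n) (10 * m + 9))

theorem wt_step (m : ℕ) (hm : Ok m) :
    500 * ((if Ok (10 * m + 1) then wt (10 * m + 1) else 0) + (if Ok (10 * m + 3) then wt (10 * m + 3) else 0) +
      ((if Ok (10 * m + 7) then wt (10 * m + 7) else 0) + (if Ok (10 * m + 9) then wt (10 * m + 9) else 0))) ≤
      629 * wt m := by
  obtain ⟨h1, h2⟩ := val_idx (m : ℤ) hm.1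
  have e3 : idx (10 * (m : ℤ) + 3) = idx ((10 * m + 3 : ℕ) : ℤ) := by push_cast; rfl
  have e9 : idx (10 * (m : ℤ) + 9) = idx ((10 * m + 9 : ℕ) : ℤ) := by push_cast; rfl
  rw [e3, e9] at h2
  have b1 := val_lt (idx ((10 * m + 1 : ℕ) : ℤ))
  have b7 := val_lt (idx ((10 * m + 7 : ℕ) : ℤ))
  have hm3 := hm.2
  have hcase : m % 3 = 1 ∨ m % 3 = 2 := by omega
  rcases hcase with h | h
  · have c1 : (if Ok (10 * m + 1) then wt (10 * m + 1) else 0) ≤ val (idx ((10 * m + 1 : ℕ) : ℤ)) := by
      split_ifs
      · unfold wt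
        rw [if_pos (by omega)]
      · exact Nat.zero_le _
    have c7 : (if Ok (10 * m + 7) then wt (10 * m + 7) else 0) ≤ val (idx ((10 * m + 7 : ℕ) : ℤ)) := by
      split_ifs
      · unfold wt
        rw [if_pos (by omega)]
      · exact Nat.zero_le _
    have c3 : (if Ok (10 * m + 3) then wt (10 * m + 3) else 0) ≤ 16384 * val (idx ((10 * m + 3 : ℕ) : ℤ)) := by
      split_ifs
      · unfold wt
        rw [if_neg (by omega)]
      · exact Nat.zero_le _
    have c9 : (if Ok (10 * m + 9) then wt (10 * m + 9) else 0) ≤ 16384 * val (idx ((10 * m + 9 : ℕ) : ℤ)) := by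
      split_ifs
      · unfold wt
        rw [if_neg (by omega)]
      · exact Nat.zero_le _
    have hw : wt m = 16384 * val (idx m) := by
      unfold wt
      rw [if_neg (by omega)]
    rw [hw]
    omega
  · have c1 : (if Ok (10 * m + 1) then wt (10 * m + 1) else 0) = 0 := by
      rw [if_neg]
      intro hc
      exact hc.2 (by omega)
    have c7 : (if Ok (10 * m + 7) then wt (10 * m + 7) else 0) = 0 := by
      rw [if_neg]
      intro hc
      exact hc.2 (by omega)
    have c3 : (if Ok (10 * m + 3) then wt (10 * m + 3) else 0) ≤ val (idx ((10 * m + 3 : ℕ) : ℤ)) := by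
      split_ifs
      · unfold wt
        rw [if_pos (by omega)]
      · exact Nat.zero_le _
    have c9 : (if Ok (10 * m + 9) then wt (10 * m + 9) else 0) ≤ val (idx ((10 * m + 9 : ℕ) : ℤ)) := by
      split_ifs
      · unfold wt
        rw [if_pos (by omega)]
      · exact Nat.zero_le _
    have hw : wt m = val (idx m) := by
      unfold wt
      rw [if_pos h]
    rw [hw, c1, c7]
    omega

theorem one_le_wt (m : ℕ) (hm : Ok m) : 1 ≤ wt m := by
  have := (val_idx (m : ℤ) hm.1).1
  unfold wt
  split_ifs <;> omega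

theorem wt_le (m : ℕ) : wt m ≤ 16384 * 4095 := by
  have := val_lt (idx m)
  unfold wt
  split_ifs <;> omega

theorem card_D (n : ℕ) : ∀ m : ℕ, Ok m → (D n m).card * 500 ^ n ≤ 629 ^ n * wt m := by
  induction n with
  | zero =>
    intro m hm
    have := one_le_wt m hm
    simp [D]
    omega
  | succ n ih =>
    intro m hm
    have key : ∀ a : ℕ, (br (D n) a).card * 500 ^ n ≤ 629 ^ n * (if Ok a then wt a else 0) := by
      intro a
      unfold br
      split_ifs with h
      · exact ih a h
      · simp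
    have k1 := key (10 * m + 1)
    have k3 := key (10 * m + 3)
    have k7 := key (10 * m + 7)
    have k9 := key (10 * m + 9)
    have hs := wt_step m hm
    set w1 := (if Ok (10 * m + 1) then wt (10 * m + 1) else 0)
    set w3 := (if Ok (10 * m + 3) then wt (10 * m + 3) else 0)
    set w7 := (if Ok (10 * m + 7) then wt (10 * m + 7) else 0)
    set w9 := (if Ok (10 * m + 9) then wt (10 * m + 9) else 0)
    set d1 := (br (D n) (10 * m + 1)).card
    set d3 := (br (D n) (10 * m + 3)).card
    set d7 := (br (D n) (10 * m + 7)).card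
    set d9 := (br (D n) (10 * m + 9)).card
    have h3 : (D (n + 1) m).card ≤ (d1 + d3) + (d7 + d9) := by
      rw [D]
      exact (Finset.card_union_le _ _).trans (Nat.add_le_add (Finset.card_union_le _ _)
        (Finset.card_union_le _ _))
    calc (D (n + 1) m).card * 500 ^ (n + 1)
        ≤ ((d1 + d3) + (d7 + d9)) * 500 ^ (n + 1) := Nat.mul_le_mul_right _ h3
      _ = 500 * ((d1 * 500 ^ n + d3 * 500 ^ n) + (d7 * 500 ^ n + d9 * 500 ^ n)) := by ring
      _ ≤ 500 * ((629 ^ n * w1 + 629 ^ n * w3) + (629 ^ n * w7 + 629 ^ n * w9)) :=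
          Nat.mul_le_mul_left _ (Nat.add_le_add (Nat.add_le_add k1 k3) (Nat.add_le_add k7 k9))
      _ = 629 ^ n * (500 * (w1 + w3 + (w7 + w9))) := by ring
      _ ≤ 629 ^ n * (629 * wt m) := Nat.mul_le_mul_left _ hs
      _ = 629 ^ (n + 1) * wt m := by ring

/-- The integers with `n` digits after the prefix `p` all of whose prefixes that are at least as long as `p`
are primes. -/
def T (p n : ℕ) : Set ℕ := {q : ℕ | q / 10 ^ n = p ∧ ∀ j ≤ n, (q / 10 ^ j).Prime}

theorem ok_of_prime {p : ℕ} (hp : p.Prime) (h : 19 < p) : Ok p := by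
  have key : ∀ q : ℕ, 2 ≤ q → q ≤ 19 → p % q ≠ 0 := by
    intro q h1 h2 h3
    rcases (Nat.dvd_prime hp).1 (Nat.dvd_of_mod_eq_zero h3) with h4 | h4 <;> omega
  have k3 := key 3 (by norm_num) (by norm_num)
  have k7 := key 7 (by norm_num) (by norm_num)
  have k13 := key 13 (by norm_num) (by norm_num)
  have k17 := key 17 (by norm_num) (by norm_num)
  have k19 := key 19 (by norm_num) (by norm_num)
  refine ⟨⟨?_, ?_, ?_, ?_⟩, k3⟩ <;> omega

theorem digit_of_prime {p d : ℕ} (hp : (10 * p + d).Prime) (h : 1 ≤ p) (hd : d < 10) :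
    d = 1 ∨ d = 3 ∨ d = 7 ∨ d = 9 := by
  have key : ∀ q : ℕ, 2 ≤ q → q ≤ 5 → (10 * p + d) % q ≠ 0 := by
    intro q h1 h2 h3
    rcases (Nat.dvd_prime hp).1 (Nat.dvd_of_mod_eq_zero h3) with h4 | h4 <;> omega
  have k2 := key 2 (by norm_num) (by norm_num)
  have k5 := key 5 (by norm_num) (by norm_num)
  interval_cases d <;> omega

theorem T_sub_D (n : ℕ) : ∀ p : ℕ, 19 < p → T p n ⊆ ↑(D n p) := by
  induction n with
  | zero =>
    rintro p _ q ⟨h1, _⟩
    simp at h1
    simp [D, h1]
  | succ n ih =>
    rintro p hp q ⟨h1, h2⟩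
    set r := q / 10 ^ n with hr
    have e1 : r / 10 = p := by rw [← h1, hr, Nat.div_div_eq_div_mul, pow_succ]
    have hpr : r.Prime := h2 n (by omega)
    have hmem : q ∈ T r n := ⟨rfl, fun j hj => h2 j (by omega)⟩
    have hr19 : 19 < r := by omega
    have hq := ih r hr19 hmem
    have hok := ok_of_prime hpr hr19
    obtain ⟨d, hd, hd2⟩ : ∃ d, r = 10 * p + d ∧ d < 10 := ⟨r % 10, by omega, by omega⟩
    have hdig := digit_of_prime (hd ▸ hpr) (by omega) hd2
    rw [Finset.mem_coe, D, Finset.mem_union, Finset.mem_union, Finset.mem_union]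
    have hbr : q ∈ br (D n) r := by
      unfold br
      rw [if_pos hok]
      exact hq
    rcases hdig with h | h | h | h
    · left; left; rw [← h, ← hd]; exact hbr
    · left; right; rw [← h, ← hd]; exact hbr
    · right; left; rw [← h, ← hd]; exact hbr
    · right; right; rw [← h, ← hd]; exact hbr

theorem T_large (p n : ℕ) (hp : 19 < p) : ((T p n).ncard : ℝ) ≤ 16384 * 4095 * (1.258 : ℝ) ^ n := by
  by_cases hpp : p.Prime
  · have h1 : (T p n).ncard ≤ (D n p).card := by
      rw [← Set.ncard_coe_finset]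
      exact Set.ncard_le_ncard (T_sub_D n p hp) (Finset.finite_toSet _)
    have h2 := (card_D n p (ok_of_prime hpp hp)).trans (Nat.mul_le_mul_left _ (wt_le p))
    have h3 : ((D n p).card : ℝ) * 500 ^ n ≤ 629 ^ n * (16384 * 4095) := by exact_mod_cast h2
    have h4 : ((T p n).ncard : ℝ) ≤ (D n p).card := by exact_mod_cast h1
    have h5 : (1.258 : ℝ) ^ n = 629 ^ n / 500 ^ n := by rw [← div_pow]; norm_num
    rw [h5, mul_div_assoc', le_div_iff₀ (by positivity)]
    nlinarith [pow_pos (show (0 : ℝ) < 500 by norm_num) n]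
  · have : T p n = ∅ := by
      ext q
      simp only [T, Set.mem_ofPred_eq, Set.mem_empty_iff_false, iff_false]
      rintro ⟨h1, h2⟩
      exact hpp (h1 ▸ h2 n le_rfl)
    rw [this]
    simp
    positivity

theorem T_all (p n : ℕ) : ((T p n).ncard : ℝ) ≤ 10 ^ 9 * (1.258 : ℝ) ^ n := by
  rcases Nat.lt_or_ge 19 p with hp | hp
  · refine (T_large p n hp).trans ?_
    have : (0 : ℝ) < (1.258 : ℝ) ^ n := by positivity
    nlinarith
  · by_cases hpp : p.Prime
    · rcases n with _ | n
      · have : T p 0 ⊆ {p} := by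
          rintro q ⟨h1, _⟩
          simp at h1
          simp [h1]
        have h2 := Set.ncard_le_ncard this (Set.finite_singleton p)
        rw [Set.ncard_singleton] at h2
        have h3 : ((T p 0).ncard : ℝ) ≤ 1 := by exact_mod_cast h2
        simp
        linarith
      · have h2 := hpp.two_le
        have hsub : T p (n + 1) ⊆ ⋃ d ∈ Finset.range 10, T (10 * p + d) n := by
          rintro q ⟨h1, h3⟩
          have e1 : q / 10 ^ n / 10 = p := by rw [← h1, Nat.div_div_eq_div_mul, pow_succ]
          simp only [Set.mem_iUnion]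
          refine ⟨q / 10 ^ n % 10, by simp; omega, by omega, fun j hj => h3 j (by omega)⟩
        have hfin : ∀ d, (T (10 * p + d) n).Finite := by
          intro d
          rcases Nat.lt_or_ge 19 (10 * p + d) with h | h
          · exact (Finset.finite_toSet _).subset (T_sub_D n _ h)
          · omega
        have h4 : (T p (n + 1)).ncard ≤ ∑ d ∈ Finset.range 10, (T (10 * p + d) n).ncard := by
          refine (Set.ncard_le_ncard hsub ?_).trans (Finset.set_ncard_biUnion_le _ _)
          exact (Finset.range 10).finite_toSet.biUnion fun d _ => hfin d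
        have h5 : ((T p (n + 1)).ncard : ℝ) ≤ ∑ d ∈ Finset.range 10, ((T (10 * p + d) n).ncard : ℝ) := by
          exact_mod_cast h4
        have h6 : ∑ d ∈ Finset.range 10, ((T (10 * p + d) n).ncard : ℝ) ≤
            ∑ d ∈ Finset.range 10, 16384 * 4095 * (1.258 : ℝ) ^ n :=
          Finset.sum_le_sum fun d _ => T_large _ _ (by omega)
        rw [Finset.sum_const, Finset.card_range, nsmul_eq_mul] at h6
        have : (0 : ℝ) < (1.258 : ℝ) ^ n := by positivity
        have e : (1.258 : ℝ) ^ (n + 1) = 1.258 ^ n * 1.258 := pow_succ _ _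
        rw [e]
        push_cast at h6
        linarith
    · have : T p n = ∅ := by
        ext q
        simp only [T, Set.mem_ofPred_eq, Set.mem_empty_iff_false, iff_false]
        rintro ⟨h1, h2⟩
        exact hpp (h1 ▸ h2 n le_rfl)
      rw [this]
      simp
      positivity

end Pool.Agent.helper391_MY
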