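import Mathlib
import Pool.Agent.helper391_MY.Count

set_option autoImplicit false

/-! The integer parts of `10^n α`. -/

namespace Pool.Agent.helper391_MY

open Filter

/-- The integer `m` is composite. -/
def Composite (m : ℤ) : Prop := 2 ≤ m.natAbs ∧ ¬ m.natAbs.Prime

/-- The integer part of `10^n α`. -/
noncomputable def X (α : ℝ) (n : ℕ) : ℤ := ⌊(10 : ℝ) ^ n * α⌋

theorem X_step (α : ℝ) (n : ℕ) : 10 * X α n ≤ X α (n + 1) ∧ X α (n + 1) ≤ 10 * X α n + 9 := by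
  unfold X
  have h1 := Int.floor_le ((10 : ℝ) ^ n * α)
  have h2 := Int.lt_floor_add_one ((10 : ℝ) ^ n * α)
  have h3 : (10 : ℝ) ^ (n + 1) * α = 10 * ((10 : ℝ) ^ n * α) := by ring
  rw [h3]
  constructor
  · rw [Int.le_floor]
    push_cast
    linarith
  · have h4 : ⌊10 * ((10 : ℝ) ^ n * α)⌋ < 10 * ⌊(10 : ℝ) ^ n * α⌋ + 10 := by
      rw [Int.floor_lt]
      push_cast
      linarith
    omega

theorem X_large (α : ℝ) (hα : α ≠ 0) : ∃ N : ℕ, ∀ n, N ≤ n → 100 < (X α n).natAbs := by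
  have h1 : Tendsto (fun n : ℕ => (10 : ℝ) ^ n * |α|) atTop atTop :=
    (tendsto_pow_atTop_atTop_of_one_lt (by norm_num)).atTop_mul_const (abs_pos.2 hα)
  obtain ⟨N, hN⟩ := eventually_atTop.1 (h1.eventually_ge_atTop 102)
  refine ⟨N, fun n hn => ?_⟩
  have h2 := hN n hn
  have h3 : |(10 : ℝ) ^ n * α| = (10 : ℝ) ^ n * |α| := by rw [abs_mul, abs_of_pos (by positivity)]
  rw [← h3] at h2
  have h4 := Int.floor_le ((10 : ℝ) ^ n * α)
  have h5 := Int.lt_floor_add_one ((10 : ℝ) ^ n * α)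
  change (X α n : ℝ) ≤ _ at h4
  change _ < (X α n : ℝ) + 1 at h5
  have h6 : (101 : ℝ) ≤ |(X α n : ℝ)| := by
    rcases abs_cases ((10 : ℝ) ^ n * α) with ⟨h, _⟩ | ⟨h, _⟩
    · rw [h] at h2
      rw [le_abs]; left; linarith
    · rw [h] at h2
      rw [le_abs]; right; linarith
  have h7 : ((X α n).natAbs : ℝ) = |(X α n : ℝ)| := by
    rw [Nat.cast_natAbs]; push_cast; rfl
  rw [← h7] at h6
  have h8 : 101 ≤ (X α n).natAbs := by exact_mod_cast h6
  omega

theorem not_dvd_of {m : ℤ} (h1 : 100 < m.natAbs) (h2 : ¬ Composite m) (q : ℕ) (hq : 2 ≤ q) (hq2 : q ≤ 100) :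
    m % q ≠ 0 := by
  intro h
  unfold Composite at h2
  have hp : m.natAbs.Prime := by
    by_contra hc
    exact h2 ⟨by omega, hc⟩
  have hd : (q : ℤ) ∣ m := Int.dvd_of_emod_eq_zero h
  have hd2 : q ∣ m.natAbs := by
    have := Int.natAbs_dvd_natAbs.2 hd
    simpa using this
  rcases (Nat.dvd_prime hp).1 hd2 with h3 | h3 <;> omega

/-- From some point on only the digits 3 and 9 occur. -/
theorem digits (α : ℝ) (hα : α ≠ 0) (h : ∀ n : ℕ, 1 ≤ n → ¬ Composite (X α n)) :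
    ∃ N : ℕ, (∀ k, N ≤ k → Good (X α k)) ∧
      ∀ k, N ≤ k → X α (k + 1) = 10 * X α k + 3 ∨ X α (k + 1) = 10 * X α k + 9 := by
  obtain ⟨N, hN⟩ := X_large α hα
  have hnd : ∀ n, N + 1 ≤ n → ∀ q : ℕ, 2 ≤ q → q ≤ 100 → X α n % q ≠ 0 := fun n hn q h1 h2 =>
    not_dvd_of (hN n (by omega)) (h n (by omega)) q h1 h2
  have hgood : ∀ n, N + 1 ≤ n → Good (X α n) := fun n hn =>
    ⟨by exact_mod_cast hnd n hn 7 (by norm_num) (by norm_num), by exact_mod_cast hnd n hn 13 (by norm_num) (by norm_num),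
      by exact_mod_cast hnd n hn 17 (by norm_num) (by norm_num),
      by exact_mod_cast hnd n hn 19 (by norm_num) (by norm_num)⟩
  have hstep : ∀ n, N + 1 ≤ n → (X α (n + 1) = 10 * X α n + 3 ∨ X α (n + 1) = 10 * X α n + 9) ∨
      (X α n % 3 = 1 ∧ X α (n + 1) % 3 = 2) := by
    intro n hn
    obtain ⟨s1, s2⟩ := X_step α n
    have a2 : X α (n + 1) % 2 ≠ 0 := by exact_mod_cast hnd (n + 1) (by omega) 2 (by norm_num) (by norm_num)
    have a5 : X α (n + 1) % 5 ≠ 0 := by exact_mod_cast hnd (n + 1) (by omega) 5 (by norm_num) (by norm_num)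
    have a3 : X α (n + 1) % 3 ≠ 0 := by exact_mod_cast hnd (n + 1) (by omega) 3 (by norm_num) (by norm_num)
    have b3 : X α n % 3 ≠ 0 := by exact_mod_cast hnd n (by omega) 3 (by norm_num) (by norm_num)
    obtain ⟨d, hd⟩ : ∃ d, X α (n + 1) = 10 * X α n + d := ⟨X α (n + 1) - 10 * X α n, by ring⟩
    have d0 : 0 ≤ d := by omega
    have d9 : d ≤ 9 := by omega
    rw [hd] at a2 a5 a3 ⊢
    interval_cases d <;> omega
  by_cases hex : ∃ n, N + 1 ≤ n ∧ X α n % 3 = 2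
  · obtain ⟨n, hn, h2⟩ := hex
    have hall : ∀ j, X α (n + j) % 3 = 2 := by
      intro j
      induction j with
      | zero => simpa using h2
      | succ j ih =>
        rcases hstep (n + j) (by omega) with h3 | ⟨h3, h4⟩
        · rw [← add_assoc]; omega
        · exact h4
    refine ⟨n, fun k hk => hgood k (by omega), fun k hk => ?_⟩
    obtain ⟨j, rfl⟩ := Nat.exists_eq_add_of_le hk
    rcases hstep (n + j) (by omega) with h3 | ⟨h3, _⟩
    · exact h3
    · rw [hall j] at h3; omega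
  · push Not at hex
    refine ⟨N + 1, hgood, fun k hk => ?_⟩
    rcases hstep k hk with h3 | ⟨_, h4⟩
    · exact h3
    · exact absurd h4 (hex (k + 1) (by omega))

end Pool.Agent.helper391_MY
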