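import Mathlib
import Pool.Agent.helper391_MY.Seq

set_option autoImplicit false

/-! The set of the real numbers `α` for which no `⌊10^n α⌋` is composite has Hausdorff dimension at most `1/10`. -/

namespace Pool.Agent.helper391_MY

open Filter MeasureTheory
open scoped ENNReal NNReal Topology

/-- The numbers whose sequence has the integer `m` at the index `N`, and is good from there on. -/
def A (N : ℕ) (m : ℤ) : Set ℝ :=
  {α | X α N = m ∧ (∀ k, N ≤ k → Good (X α k)) ∧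
    ∀ k, N ≤ k → X α (k + 1) = 10 * X α k + 3 ∨ X α (k + 1) = 10 * X α k + 9}

theorem pow_le : ((629 : ℝ) / 500) * (10 : ℝ) ^ (-(1 / 10 : ℝ)) ≤ 1 := by
  have h1 : (629 / 500 : ℝ) ≤ (10 : ℝ) ^ (1 / 10 : ℝ) := by
    rw [show (629 / 500 : ℝ) = (((629 / 500 : ℝ)) ^ (10 : ℕ)) ^ (1 / 10 : ℝ) by
      rw [← Real.rpow_natCast, ← Real.rpow_mul (by norm_num)]; norm_num]
    exact Real.rpow_le_rpow (by norm_num) (by norm_num) (by norm_num)
  rw [Real.rpow_neg (by norm_num), ← div_eq_mul_inv, div_le_one (by positivity)]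
  exact h1

theorem sum_le (N : ℕ) (m : ℤ) (hm : Good m) (n : ℕ) :
    ((desc n m).card : ℝ) * ((1 / 10 : ℝ) ^ (N + n)) ^ (1 / 10 : ℝ) ≤ val (idx m) := by
  have h1 := card_desc n m hm
  have h2 : ((desc n m).card : ℝ) * 500 ^ n ≤ 629 ^ n * val (idx m) := by exact_mod_cast h1
  have h3 : ((desc n m).card : ℝ) ≤ (629 / 500 : ℝ) ^ n * val (idx m) := by
    rw [div_pow, div_mul_eq_mul_div, le_div_iff₀ (by positivity)]
    exact h2
  have h4 : ((1 / 10 : ℝ) ^ (N + n)) ^ (1 / 10 : ℝ) ≤ ((10 : ℝ) ^ (-(1 / 10 : ℝ))) ^ n := by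
    have e1 : ((10 : ℝ) ^ (-(1 / 10 : ℝ))) ^ n = ((1 / 10 : ℝ) ^ n) ^ (1 / 10 : ℝ) := by
      have e2 : ((1 / 10 : ℝ) ^ n) = (10 : ℝ) ^ (-(n : ℝ)) := by
        rw [Real.rpow_neg (by norm_num), Real.rpow_natCast, one_div_pow, one_div]
      rw [e2, ← Real.rpow_mul (by norm_num), ← Real.rpow_natCast ((10 : ℝ) ^ (-(1 / 10 : ℝ))) n,
        ← Real.rpow_mul (by norm_num)]
      congr 1
      ring
    rw [e1]
    refine Real.rpow_le_rpow (by positivity) ?_ (by norm_num)
    exact pow_le_pow_of_le_one (by norm_num) (by norm_num) (by omega)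
  calc ((desc n m).card : ℝ) * ((1 / 10 : ℝ) ^ (N + n)) ^ (1 / 10 : ℝ)
      ≤ ((629 / 500 : ℝ) ^ n * val (idx m)) * ((10 : ℝ) ^ (-(1 / 10 : ℝ))) ^ n :=
        mul_le_mul h3 h4 (by positivity) (by positivity)
    _ = ((629 / 500 : ℝ) * (10 : ℝ) ^ (-(1 / 10 : ℝ))) ^ n * val (idx m) := by rw [mul_pow]; ring
    _ ≤ 1 * val (idx m) := by
        refine mul_le_mul_of_nonneg_right (pow_le_one₀ (by positivity) pow_le) (by positivity)
    _ = val (idx m) := one_mul _

theorem dimH_A (N : ℕ) (m : ℤ) : dimH (A N m) ≤ ((1 / 10 : ℝ≥0) : ℝ≥0∞) := by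
  by_cases hm : Good m
  · refine dimH_le_of_hausdorffMeasure_ne_top ?_
    have hle := Measure.hausdorffMeasure_le_liminf_sum (β := ℕ) (ι := fun n => ↥(desc n m))
      ((1 / 10 : ℝ≥0) : ℝ) (A N m) (l := atTop)
      (fun n => ENNReal.ofReal ((1 / 10 : ℝ) ^ (N + n))) ?_
      (fun n k => Set.Icc (((k : ℤ) : ℝ) / 10 ^ (N + n)) ((((k : ℤ) : ℝ) + 1) / 10 ^ (N + n))) ?_ ?_
    · refine ne_top_of_le_ne_top (b := ENNReal.ofReal (val (idx m))) ENNReal.ofReal_ne_top ?_
      refine hle.trans ?_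
      refine liminf_le_of_le (by isBoundedDefault) ?_
      intro b hb
      obtain ⟨n, hn⟩ := hb.exists
      refine hn.trans ?_
      have hd : ∀ k : ↥(desc n m), Metric.ediam (Set.Icc (((k : ℤ) : ℝ) / 10 ^ (N + n))
          ((((k : ℤ) : ℝ) + 1) / 10 ^ (N + n))) = ENNReal.ofReal ((1 / 10 : ℝ) ^ (N + n)) := by
        intro k
        rw [Real.ediam_Icc]
        congr 1
        rw [div_sub_div_same, one_div_pow]
        ring
      simp only [hd]
      rw [Finset.sum_const, Finset.card_univ, Fintype.card_coe, nsmul_eq_mul,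
        ENNReal.ofReal_rpow_of_nonneg (by positivity) (by positivity), ← ENNReal.ofReal_natCast,
        ← ENNReal.ofReal_mul (by positivity)]
      refine ENNReal.ofReal_le_ofReal ?_
      have := sum_le N m hm n
      simpa using this
    · have h1 : Tendsto (fun n : ℕ => ((1 / 10 : ℝ) ^ (N + n))) atTop (𝓝 0) := by
        have h2 := tendsto_pow_atTop_nhds_zero_of_lt_one (r := (1 / 10 : ℝ)) (by norm_num) (by norm_num)
        exact h2.comp (tendsto_add_atTop_nat N |>.congr (fun n => by ring))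
      have h3 := ENNReal.tendsto_ofReal h1
      simpa using h3
    · refine Eventually.of_forall fun n k => ?_
      rw [Real.ediam_Icc]
      refine le_of_eq ?_
      congr 1
      rw [div_sub_div_same, one_div_pow]
      ring
    · refine Eventually.of_forall fun n α hα => ?_
      obtain ⟨h1, h2, h3⟩ := hα
      have h4 := mem_desc (X α) n N h2 h3
      rw [h1] at h4
      rw [Set.mem_iUnion]
      refine ⟨⟨X α (N + n), h4⟩, ?_⟩
      have h5 := Int.floor_le ((10 : ℝ) ^ (N + n) * α)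
      have h6 := Int.lt_floor_add_one ((10 : ℝ) ^ (N + n) * α)
      change (X α (N + n) : ℝ) ≤ _ at h5
      change _ < (X α (N + n) : ℝ) + 1 at h6
      rw [Set.mem_Icc, div_le_iff₀ (by positivity), le_div_iff₀ (by positivity)]
      constructor
      · linarith
      · linarith
  · have : A N m = ∅ := by
      ext α
      simp only [Set.mem_empty_iff_false, iff_false]
      rintro ⟨h1, h2, _⟩
      exact hm (h1 ▸ h2 N le_rfl)
    rw [this, dimH_empty]
    exact zero_le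

theorem main : dimH {α : ℝ | α ≠ 0 ∧ ∀ n : ℕ, 1 ≤ n → ¬ Composite ⌊(10 : ℝ) ^ n * α⌋} ≤
    ((1 / 10 : ℝ≥0) : ℝ≥0∞) := by
  have hsub : {α : ℝ | α ≠ 0 ∧ ∀ n : ℕ, 1 ≤ n → ¬ Composite ⌊(10 : ℝ) ^ n * α⌋} ⊆
      ⋃ i : ℕ × ℤ, A i.1 i.2 := by
    rintro α ⟨h0, h⟩
    obtain ⟨N, h1, h2⟩ := digits α h0 h
    rw [Set.mem_iUnion]
    exact ⟨(N, X α N), rfl, h1, h2⟩
  refine (dimH_mono hsub).trans ?_
  rw [dimH_iUnion]
  exact iSup_le fun i => dimH_A i.1 i.2

end Pool.Agent.helper391_MY
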